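import Mathlib
import Pool.Agent.R213.GlobalODE

set_option autoImplicit false
open Filter Topology Set
open scoped NNReal

namespace Pool.Agent.Results.MP_3a3e96_an.Winfree

/-- The vector field of the sinusoidal Winfree model. -/
noncomputable def field {N : ℕ} (ω : Fin N → ℝ) (κ : ℝ) (θ : Fin N → ℝ) (i : Fin N) : ℝ :=
  ω i - κ / N * (∑ j, (1 + Real.cos (θ j))) * Real.sin (θ i)

/-- Solutions on `[0, ∞)` with initial datum `Θ₀`. -/
def IsSolution {N : ℕ} (ω : Fin N → ℝ) (κ : ℝ) (Θ₀ : Fin N → ℝ) (θ : ℝ → Fin N → ℝ) : Prop :=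
  θ 0 = Θ₀ ∧ ∀ t : ℝ, 0 ≤ t → ∀ i, HasDerivWithinAt (fun s => θ s i) (field ω κ (θ t) i) (Ici 0) t

/-- `𝓑`-oscillator death: the phases in `𝓑` are bounded. -/
def PartialDeath {N : ℕ} (𝓑 : Finset (Fin N)) (θ : ℝ → Fin N → ℝ) : Prop :=
  ∀ i ∈ 𝓑, ∃ M : ℝ, ∀ t : ℝ, 0 ≤ t → |θ t i| ≤ M

/-- `𝓒`-oscillator locking: bounded phase differences, and no phase in `𝓒` has `θ_i(t) / t → 0`. -/
def PartialLocking {N : ℕ} (𝓒 : Finset (Fin N)) (θ : ℝ → Fin N → ℝ) : Prop :=
  (∀ i ∈ 𝓒, ∀ j ∈ 𝓒, ∃ M : ℝ, ∀ t : ℝ, 0 ≤ t → |θ t i - θ t j| ≤ M) ∧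
  ∀ i ∈ 𝓒, ¬ Tendsto (fun t : ℝ => θ t i / t) atTop (𝓝 0)

/-! ### Existence of solutions -/

lemma exists_solution {N : ℕ} (ω : Fin N → ℝ) {κ : ℝ} (hκ : 0 ≤ κ) (Θ₀ : Fin N → ℝ) :
    ∃ θ, IsSolution ω κ Θ₀ θ := by
  have hR : ∀ θ : Fin N → ℝ, |κ / N * ∑ j, (1 + Real.cos (θ j))| ≤ 2 * κ := by
    intro θ
    rcases Nat.eq_zero_or_pos N with hN | hN
    · subst hN; simp; positivity
    have hN' : (0 : ℝ) < N := Nat.cast_pos.2 hN
    have h1 : |∑ j, (1 + Real.cos (θ j))| ≤ 2 * N := by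
      refine (Finset.abs_sum_le_sum_abs _ _).trans ?_
      calc ∑ j, |1 + Real.cos (θ j)| ≤ ∑ _j : Fin N, (2 : ℝ) := by
            refine Finset.sum_le_sum fun j _ => ?_
            rw [abs_le]
            constructor <;> linarith [Real.cos_le_one (θ j), Real.neg_one_le_cos (θ j)]
        _ = 2 * N := by simp; ring
    rw [abs_mul, abs_of_nonneg (by positivity : 0 ≤ κ / (N : ℝ))]
    calc κ / N * |∑ j, (1 + Real.cos (θ j))| ≤ κ / N * (2 * N) :=
          mul_le_mul_of_nonneg_left h1 (by positivity)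
      _ = 2 * κ := by field_simp
  have hRlip : ∀ θ θ' : Fin N → ℝ, |κ / N * ∑ j, (1 + Real.cos (θ j)) -
      κ / N * ∑ j, (1 + Real.cos (θ' j))| ≤ κ * dist θ θ' := by
    intro θ θ'
    rcases Nat.eq_zero_or_pos N with hN | hN
    · subst hN; simp; positivity
    have hN' : (0 : ℝ) < N := Nat.cast_pos.2 hN
    rw [← mul_sub, ← Finset.sum_sub_distrib, abs_mul, abs_of_nonneg (by positivity : 0 ≤ κ / (N : ℝ))]
    have h1 : |∑ j, (1 + Real.cos (θ j) - (1 + Real.cos (θ' j)))| ≤ N * dist θ θ' := by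
      refine (Finset.abs_sum_le_sum_abs _ _).trans ?_
      calc ∑ j, |1 + Real.cos (θ j) - (1 + Real.cos (θ' j))| ≤ ∑ _j : Fin N, dist θ θ' := by
            refine Finset.sum_le_sum fun j _ => ?_
            rw [add_sub_add_left_eq_sub]
            refine (Real.abs_cos_sub_cos_le _ _).trans ?_
            rw [← Real.dist_eq]
            exact dist_le_pi_dist θ θ' j
        _ = N * dist θ θ' := by simp
    calc κ / N * |∑ j, (1 + Real.cos (θ j) - (1 + Real.cos (θ' j)))| ≤ κ / N * (N * dist θ θ') :=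
          mul_le_mul_of_nonneg_left h1 (by positivity)
      _ = κ * dist θ θ' := by field_simp
  obtain ⟨W, hW⟩ : ∃ W : ℝ, 0 ≤ W ∧ ∀ i, |ω i| ≤ W :=
    ⟨‖ω‖, norm_nonneg _, fun i => by rw [← Real.norm_eq_abs]; exact norm_le_pi_norm ω i⟩
  have hbound : ∀ θ : Fin N → ℝ, ‖field ω κ θ‖ ≤ ((W + 2 * κ).toNNReal : ℝ≥0) := by
    intro θ
    rw [Real.coe_toNNReal _ (by have := hW.1; positivity)]
    refine (pi_norm_le_iff_of_nonneg (by have := hW.1; positivity)).2 fun i => ?_
    unfold field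
    rw [Real.norm_eq_abs]
    refine (abs_sub _ _).trans (add_le_add (hW.2 i) ?_)
    rw [abs_mul]
    calc _ ≤ 2 * κ * 1 := mul_le_mul (hR θ) (Real.abs_sin_le_one _) (abs_nonneg _) (by positivity)
      _ = 2 * κ := mul_one _
  have hlip : LipschitzWith (3 * κ).toNNReal (field ω κ) := by
    refine LipschitzWith.of_dist_le_mul fun θ θ' => ?_
    rw [Real.coe_toNNReal _ (by positivity)]
    refine (dist_pi_le_iff (by positivity)).2 fun i => ?_
    unfold field
    rw [Real.dist_eq]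
    set a := κ / N * ∑ j, (1 + Real.cos (θ j)) with ha
    set b := κ / N * ∑ j, (1 + Real.cos (θ' j)) with hb
    have e : ω i - a * Real.sin (θ i) - (ω i - b * Real.sin (θ' i)) =
        -((a - b) * Real.sin (θ i)) - b * (Real.sin (θ i) - Real.sin (θ' i)) := by ring
    rw [e]
    refine (abs_sub _ _).trans ?_
    rw [abs_neg, abs_mul, abs_mul]
    have h1 : |a - b| * |Real.sin (θ i)| ≤ κ * dist θ θ' * 1 :=
      mul_le_mul (hRlip θ θ') (Real.abs_sin_le_one _) (abs_nonneg _) (by positivity)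
    have h2 : |b| * |Real.sin (θ i) - Real.sin (θ' i)| ≤ 2 * κ * dist θ θ' := by
      refine mul_le_mul (hR θ') ?_ (abs_nonneg _) (by positivity)
      refine (Real.abs_sin_sub_sin_le _ _).trans ?_
      rw [← Real.dist_eq]
      exact dist_le_pi_dist θ θ' i
    linarith
  obtain ⟨α, hα0, hα⟩ := Pool.Agent.R213.exists_solution_Ici hlip hbound Θ₀
  refine ⟨α, hα0, fun t ht i => ?_⟩
  exact (hasDerivWithinAt_pi.1 (hα t ht)) i

/-! ### Elementary estimates -/

/-- the mean field -/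
noncomputable def R {N : ℕ} (x : Fin N → ℝ) : ℝ := (∑ j, (1 + Real.cos (x j))) / N

/-- the standing assumptions on the index sets and frequencies -/
structure Setup {N : ℕ} (ω : Fin N → ℝ) (B C D : Finset (Fin N)) : Prop where
  pos : 0 < N
  cardB : 49 / 100 * (N : ℝ) ≤ B.card ∧ (B.card : ℝ) ≤ 51 / 100 * N
  cardC : 49 / 100 * (N : ℝ) ≤ C.card ∧ (C.card : ℝ) ≤ 51 / 100 * N
  cardD : (D.card : ℝ) ≤ 2 / 100 * N
  split : ∀ f : Fin N → ℝ, ∑ j, f j = ∑ j ∈ B, f j + ∑ j ∈ C, f j + ∑ j ∈ D, f j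
  freqB : ∀ i ∈ B, |ω i| ≤ 1 / 200000
  freqC : ∀ i ∈ C, |ω i - 1| ≤ 1 / 200000

section Estimates

variable {N : ℕ} {ω : Fin N → ℝ} {B C D : Finset (Fin N)}

lemma R_nonneg (x : Fin N → ℝ) : 0 ≤ R x :=
  div_nonneg (Finset.sum_nonneg fun j _ => by linarith [Real.neg_one_le_cos (x j)]) (Nat.cast_nonneg N)

lemma R_le_two (h : 0 < N) (x : Fin N → ℝ) : R x ≤ 2 := by
  have hN : (0 : ℝ) < N := Nat.cast_pos.2 h
  unfold R
  rw [div_le_iff₀ hN]
  calc ∑ j, (1 + Real.cos (x j)) ≤ ∑ _j : Fin N, (2 : ℝ) :=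
        Finset.sum_le_sum fun j _ => by linarith [Real.cos_le_one (x j)]
    _ = 2 * N := by simp; ring

lemma R_est (h : Setup ω B C D) {x : Fin N → ℝ} (hB : ∀ k ∈ B, |x k| ≤ 2 / 5)
    (hC : ∀ i ∈ C, ∀ j ∈ C, |x i - x j| ≤ 1 / 100) :
    1 / 2 ≤ R x ∧ R x ≤ 2 ∧ ∀ j ∈ C, |R x - (3 / 2 + Real.cos (x j) / 2)| ≤ 86 / 1000 := by
  have hN : (0 : ℝ) < N := Nat.cast_pos.2 h.pos
  have e : R x = (∑ j ∈ B, (1 + Real.cos (x j))) / N + (∑ j ∈ C, (1 + Real.cos (x j))) / N +
      (∑ j ∈ D, (1 + Real.cos (x j))) / N := by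
    unfold R
    rw [h.split, add_div, add_div]
  have b1 : 94 / 100 ≤ (∑ j ∈ B, (1 + Real.cos (x j))) / N := by
    rw [le_div_iff₀ hN]
    have : ∑ _j ∈ B, (192 / 100 : ℝ) ≤ ∑ j ∈ B, (1 + Real.cos (x j)) := by
      refine Finset.sum_le_sum fun j hj => ?_
      have h1 := Real.one_sub_sq_div_two_le_cos (x := x j)
      have h2 : (x j) ^ 2 ≤ (2 / 5) ^ 2 := sq_le_sq' (by linarith [(abs_le.1 (hB j hj)).1])
        (abs_le.1 (hB j hj)).2
      linarith
    rw [Finset.sum_const, nsmul_eq_mul] at this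
    have := h.cardB.1
    linarith
  have b2 : (∑ j ∈ B, (1 + Real.cos (x j))) / N ≤ 102 / 100 := by
    rw [div_le_iff₀ hN]
    have : ∑ j ∈ B, (1 + Real.cos (x j)) ≤ ∑ _j ∈ B, (2 : ℝ) :=
      Finset.sum_le_sum fun j _ => by linarith [Real.cos_le_one (x j)]
    rw [Finset.sum_const, nsmul_eq_mul] at this
    have := h.cardB.2
    linarith
  have c1 : 0 ≤ (∑ j ∈ C, (1 + Real.cos (x j))) / N :=
    div_nonneg (Finset.sum_nonneg fun j _ => by linarith [Real.neg_one_le_cos (x j)]) hN.le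
  have m1 : 0 ≤ (∑ j ∈ D, (1 + Real.cos (x j))) / N :=
    div_nonneg (Finset.sum_nonneg fun j _ => by linarith [Real.neg_one_le_cos (x j)]) hN.le
  have m2 : (∑ j ∈ D, (1 + Real.cos (x j))) / N ≤ 4 / 100 := by
    rw [div_le_iff₀ hN]
    have : ∑ j ∈ D, (1 + Real.cos (x j)) ≤ ∑ _j ∈ D, (2 : ℝ) :=
      Finset.sum_le_sum fun j _ => by linarith [Real.cos_le_one (x j)]
    rw [Finset.sum_const, nsmul_eq_mul] at this
    have := h.cardD
    linarith
  refine ⟨by rw [e]; linarith, R_le_two h.pos x, fun j hj => ?_⟩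
  have hc1 := Real.cos_le_one (x j)
  have hc2 := Real.neg_one_le_cos (x j)
  have d1 : (1 + Real.cos (x j)) / 2 - 26 / 1000 ≤ (∑ k ∈ C, (1 + Real.cos (x k))) / N := by
    rw [le_div_iff₀ hN]
    have : ∑ _k ∈ C, (1 + Real.cos (x j) - 1 / 100) ≤ ∑ k ∈ C, (1 + Real.cos (x k)) := by
      refine Finset.sum_le_sum fun k hk => ?_
      have h1 := (Real.abs_cos_sub_cos_le (x k) (x j)).trans (hC k hk j hj)
      linarith [(abs_le.1 h1).1]
    rw [Finset.sum_const, nsmul_eq_mul] at this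
    have h1 := h.cardC.1
    have h2 := h.cardC.2
    nlinarith
  have d2 : (∑ k ∈ C, (1 + Real.cos (x k))) / N ≤ (1 + Real.cos (x j)) / 2 + 26 / 1000 := by
    rw [div_le_iff₀ hN]
    have : ∑ k ∈ C, (1 + Real.cos (x k)) ≤ ∑ _k ∈ C, (1 + Real.cos (x j) + 1 / 100) := by
      refine Finset.sum_le_sum fun k hk => ?_
      have h1 := (Real.abs_cos_sub_cos_le (x k) (x j)).trans (hC k hk j hj)
      linarith [(abs_le.1 h1).2]
    rw [Finset.sum_const, nsmul_eq_mul] at this
    have h1 := h.cardC.1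
    have h2 := h.cardC.2
    nlinarith
  rw [e, abs_le]
  constructor <;> linarith

/-- `(sin x - sin y) / (x - y)`, extended continuously -/
noncomputable def g (x y : ℝ) : ℝ := Real.sinc ((x - y) / 2) * Real.cos ((x + y) / 2)

lemma sin_sub_sin_eq (x y : ℝ) : Real.sin x - Real.sin y = (x - y) * g x y := by
  have h1 : Real.sin ((x - y) / 2) = (x - y) / 2 * Real.sinc ((x - y) / 2) := by
    by_cases h : (x - y) / 2 = 0
    · rw [h]; simp
    · have h' : x - y ≠ 0 := fun h0 => h (by rw [h0]; simp)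
      rw [Real.sinc_of_ne_zero h]; field_simp
  rw [Real.sin_sub_sin, h1]
  unfold g
  ring

lemma g_close {x y : ℝ} (h : |x - y| ≤ 1 / 100) : |g x y - Real.cos y| ≤ 1 / 100 := by
  by_cases hxy : x = y
  · subst hxy
    unfold g
    simp
  · have hne : x - y ≠ 0 := sub_ne_zero.2 hxy
    obtain ⟨ξ, hξ, hξ2⟩ : ∃ ξ, |ξ - y| ≤ |x - y| ∧ Real.sin x - Real.sin y = Real.cos ξ * (x - y) := by
      rcases lt_or_gt_of_ne hxy with hlt | hlt
      · obtain ⟨ξ, hξ, hξ2⟩ := exists_hasDerivAt_eq_slope Real.sin Real.cos hlt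
          Real.continuous_sin.continuousOn (fun z _ => Real.hasDerivAt_sin z)
        refine ⟨ξ, ?_, ?_⟩
        · rw [abs_sub_comm ξ, abs_sub_comm x, abs_of_pos (by linarith [hξ.2]),
            abs_of_pos (by linarith)]
          linarith [hξ.1]
        · rw [hξ2]
          have : y - x ≠ 0 := by intro h0; exact hne (by linarith)
          field_simp
          ring
      · obtain ⟨ξ, hξ, hξ2⟩ := exists_hasDerivAt_eq_slope Real.sin Real.cos hlt
          Real.continuous_sin.continuousOn (fun z _ => Real.hasDerivAt_sin z)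
        refine ⟨ξ, ?_, ?_⟩
        · rw [abs_of_pos (by linarith [hξ.1]), abs_of_pos (by linarith)]
          linarith [hξ.2]
        · rw [hξ2]
          field_simp
    have h2 : g x y = Real.cos ξ := by
      have h3 := sin_sub_sin_eq x y
      rw [hξ2] at h3
      have h4 : (x - y) * (g x y - Real.cos ξ) = 0 := by linarith
      rcases mul_eq_zero.1 h4 with h5 | h5
      · exact absurd h5 hne
      · linarith
    rw [h2]
    exact (Real.abs_cos_sub_cos_le _ _).trans (hξ.trans h)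

end Estimates

/-! ### A continuation argument -/

lemma bootstrap {P Q : ℝ → Prop} (h0 : P 0)
    (hclosed : ∀ T : ℝ, 0 < T → (∀ τ ∈ Ico 0 T, P τ) → P T)
    (himp : ∀ T : ℝ, 0 ≤ T → (∀ τ ∈ Icc 0 T, P τ) → Q T)
    (hopen : ∀ T : ℝ, 0 ≤ T → Q T → ∀ᶠ t in 𝓝[>] T, P t) : ∀ t : ℝ, 0 ≤ t → P t := by
  by_contra hcon
  push Not at hcon
  obtain ⟨t₁, ht₁, hPt₁⟩ := hcon
  set S : Set ℝ := {t | 0 ≤ t ∧ ¬ P t} with hS
  have hne : S.Nonempty := ⟨t₁, ht₁, hPt₁⟩
  have hbdd : BddBelow S := ⟨0, fun t ht => ht.1⟩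
  set T : ℝ := sInf S with hT
  have hT0 : 0 ≤ T := le_csInf hne fun t ht => ht.1
  have hlt : ∀ τ ∈ Ico 0 T, P τ := by
    intro τ hτ
    by_contra hP
    exact absurd (csInf_le hbdd (show τ ∈ S from ⟨hτ.1, hP⟩)) (not_le.2 hτ.2)
  have hPT : P T := by
    rcases hT0.eq_or_lt with h | h
    · rw [← h]; exact h0
    · exact hclosed T h hlt
  have hle : ∀ τ ∈ Icc 0 T, P τ := by
    intro τ hτ
    rcases hτ.2.lt_or_eq with h | h
    · exact hlt τ ⟨hτ.1, h⟩
    · rw [h]; exact hPT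
  have hev := hopen T hT0 (himp T hT0 hle)
  obtain ⟨b, hb, hball⟩ := (mem_nhdsGT_iff_exists_Ioo_subset.1 hev)
  have hTb : T < b := hb
  obtain ⟨t, ht, htb⟩ := exists_lt_of_csInf_lt hne hTb
  have hTt : T ≤ t := csInf_le hbdd ht
  rcases hTt.lt_or_eq with h | h
  · exact ht.2 (hball ⟨h, htb⟩)
  · exact ht.2 (h ▸ hPT)

/-! ### Dynamics -/

section Dynamics

variable {N : ℕ} {ω : Fin N → ℝ} {B C D : Finset (Fin N)} {θ : ℝ → Fin N → ℝ}

/-- the property propagated by the continuation argument -/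
def P (B C : Finset (Fin N)) (x : Fin N → ℝ) : Prop :=
  (∀ k ∈ B, |x k| ≤ 2 / 5) ∧ ∀ i ∈ C, ∀ j ∈ C, |x i - x j| ≤ 1 / 100

/-- the improved property -/
def Q (B C : Finset (Fin N)) (x : Fin N → ℝ) : Prop :=
  (∀ k ∈ B, |x k| ≤ 1 / 5) ∧ ∀ i ∈ C, ∀ j ∈ C, |x i - x j| ≤ 8 / 1000

lemma field_eq (x : Fin N → ℝ) (i : Fin N) :
    field ω (1 / 32) x i = ω i - 1 / 32 * R x * Real.sin (x i) := by
  unfold field R
  ring

lemma sol_cont (hsol : IsSolution ω (1 / 32) 0 θ) (i : Fin N) :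
    ContinuousOn (fun s => θ s i) (Ici 0) := fun t ht => (hsol.2 t ht i).continuousWithinAt

lemma sol_right (hsol : IsSolution ω (1 / 32) 0 θ) (i : Fin N) {t : ℝ} (ht : 0 ≤ t) :
    HasDerivWithinAt (fun s => θ s i) (ω i - 1 / 32 * R (θ t) * Real.sin (θ t i)) (Ici t) t := by
  have := (hsol.2 t ht i).mono (Ici_subset_Ici.2 ht)
  rwa [field_eq] at this

lemma sol_deriv (hsol : IsSolution ω (1 / 32) 0 θ) (i : Fin N) {t : ℝ} (ht : 0 < t) :
    HasDerivAt (fun s => θ s i) (ω i - 1 / 32 * R (θ t) * Real.sin (θ t i)) t := by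
  have := (hsol.2 t ht.le i).hasDerivAt (Ici_mem_nhds ht)
  rwa [field_eq] at this

lemma trap (h : Setup ω B C D) (hsol : IsSolution ω (1 / 32) 0 θ) {T : ℝ}
    (hP : ∀ τ ∈ Icc 0 T, P B C (θ τ)) : ∀ k ∈ B, ∀ t ∈ Icc 0 T, |θ t k| ≤ 1 / 5 := by
  intro k hk
  have hsin : (198 / 1000 : ℝ) ≤ Real.sin (1 / 5) := by
    have := Real.sin_gt_sub_cube (x := 1 / 5) (by norm_num)
    have e : (198 / 1000 : ℝ) ≤ (1 / 5 : ℝ) - (1 / 5) ^ 3 / 6 := by norm_num
    linarith
  have hcont : ContinuousOn (fun s => θ s k) (Icc 0 T) :=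
    (sol_cont hsol k).mono Icc_subset_Ici_self
  have h0 : θ 0 k = 0 := by rw [hsol.1]; rfl
  have hω := abs_le.1 (h.freqB k hk)
  have hup := image_le_of_deriv_right_lt_deriv_boundary (f := fun s => θ s k) (B := fun _ => 1 / 5)
    (B' := fun _ => 0) hcont (fun x hx => sol_right hsol k hx.1) (by rw [h0]; norm_num)
    (fun x => hasDerivAt_const x _) (by
      intro x hx he
      have hR := (R_est h (hP x ⟨hx.1, hx.2.le⟩).1 (hP x ⟨hx.1, hx.2.le⟩).2).1
      have he' : θ x k = 1 / 5 := he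
      rw [he']
      nlinarith)
  have hdown := image_le_of_deriv_right_lt_deriv_boundary (f := fun s => -θ s k)
    (B := fun _ => 1 / 5) (B' := fun _ => 0) hcont.neg (fun x hx => (sol_right hsol k hx.1).neg)
    (by rw [h0]; norm_num) (fun x => hasDerivAt_const x _) (by
      intro x hx he
      have hR := (R_est h (hP x ⟨hx.1, hx.2.le⟩).1 (hP x ⟨hx.1, hx.2.le⟩).2).1
      have he' : θ x k = -(1 / 5) := by linarith
      rw [he', Real.sin_neg]
      nlinarith)
  intro t ht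
  have h1 := hup ht
  have h2 := hdown ht
  exact abs_le.2 ⟨by linarith, h1⟩

lemma locking (h : Setup ω B C D) (hsol : IsSolution ω (1 / 32) 0 θ) {T : ℝ} (hT : 0 ≤ T)
    (hP : ∀ τ ∈ Icc 0 T, P B C (θ τ)) : ∀ i ∈ C, ∀ j ∈ C, |θ T i - θ T j| ≤ 8 / 1000 := by
  intro i hi j hj
  -- extended solution
  have hcθ : ∀ k, Continuous fun t => θ (max t 0) k := fun k =>
    (sol_cont hsol k).comp_continuous (by fun_prop) fun t => le_max_right t 0
  have hRc : Continuous fun t => R (θ (max t 0)) := by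
    unfold R
    refine Continuous.div_const (continuous_finsetSum _ fun k _ => ?_) _
    exact continuous_const.add (Real.continuous_cos.comp (hcθ k))
  set a : ℝ → ℝ := fun t => 1 / 32 * R (θ (max t 0)) * g (θ (max t 0) i) (θ (max t 0) j) with ha
  have hac : Continuous a := by
    have h1 := hcθ i
    have h2 := hcθ j
    simp only [ha, g]
    exact (continuous_const.mul hRc).mul ((Real.continuous_sinc.comp ((h1.sub h2).div_const 2)).mul
      (Real.continuous_cos.comp ((h1.add h2).div_const 2)))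
  have haeq : ∀ t, 0 ≤ t → a t = 1 / 32 * R (θ t) * g (θ t i) (θ t j) := by
    intro t ht
    simp only [ha, max_eq_left ht]
  set A : ℝ → ℝ := fun t => ∫ s in (0 : ℝ)..t, a s with hA
  have hAd : ∀ t, HasDerivAt A (a t) t := fun t =>
    intervalIntegral.integral_hasDerivAt_right (hac.intervalIntegrable _ _)
      (hac.stronglyMeasurableAtFilter _ _) hac.continuousAt
  have hAc : Continuous A := continuous_iff_continuousAt.2 fun t => (hAd t).continuousAt
  set J : ℝ → ℝ := fun t => ∫ s in (0 : ℝ)..t, Real.exp (A s) with hJ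
  have hJd : ∀ t, HasDerivAt J (Real.exp (A t)) t := fun t => by
    have hc : Continuous fun s => Real.exp (A s) := by fun_prop
    exact intervalIntegral.integral_hasDerivAt_right (hc.intervalIntegrable _ _)
      (hc.stronglyMeasurableAtFilter _ _) hc.continuousAt
  -- variation of constants
  have hvoc : (θ T i - θ T j) * Real.exp (A T) - (ω i - ω j) * J T = 0 := by
    have hc : ContinuousOn (fun t => (θ t i - θ t j) * Real.exp (A t) - (ω i - ω j) * J t) (Icc 0 T) := by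
      have h1 := (sol_cont hsol i).mono (Icc_subset_Ici_self : Icc (0 : ℝ) T ⊆ Ici 0)
      have h2 := (sol_cont hsol j).mono (Icc_subset_Ici_self : Icc (0 : ℝ) T ⊆ Ici 0)
      have h3 : Continuous J := continuous_iff_continuousAt.2 fun t => (hJd t).continuousAt
      exact ((h1.sub h2).mul (by fun_prop)).sub (by fun_prop)
    have hd : ∀ x ∈ Ico 0 T, HasDerivWithinAt
        (fun t => (θ t i - θ t j) * Real.exp (A t) - (ω i - ω j) * J t) 0 (Ici x) x := by
      intro x hx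
      have h1 := ((sol_right hsol i hx.1).sub (sol_right hsol j hx.1)).mul
        ((hAd x).exp.hasDerivWithinAt (s := Ici x))
      have h2 := h1.sub (((hJd x).const_mul (ω i - ω j)).hasDerivWithinAt (s := Ici x))
      refine h2.congr_deriv ?_
      have h3 := sin_sub_sin_eq (θ x i) (θ x j)
      rw [haeq x hx.1]
      simp only [Pi.sub_apply]
      linear_combination (-(1 / 32) * R (θ x) * Real.exp (A x)) * h3
    have h1 := constant_of_has_deriv_right_zero hc hd T (right_mem_Icc.2 hT)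
    rw [h1]
    have h0 : θ 0 = 0 := hsol.1
    simp [hJ, h0]
  -- growth of `A`
  have hω := abs_le.1 (h.freqC j hj)
  have hωpos : 0 < ω j := by linarith
  set G : ℝ → ℝ := fun t => (3 / 2 * Real.sin (θ t j) + 1 / 8 * Real.sin (2 * θ t j)) / ω j with hG
  have hGb : ∀ t, |G t| ≤ 165 / 100 := by
    intro t
    simp only [hG]
    rw [abs_div, abs_of_pos hωpos, div_le_iff₀ hωpos]
    have h1 := abs_le.1 (Real.abs_sin_le_one (θ t j))
    have h2 := abs_le.1 (Real.abs_sin_le_one (2 * θ t j))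
    rw [abs_le]
    constructor <;> linarith
  have hmono : MonotoneOn (fun t => 32 * A t - G t - t / 20) (Icc 0 T) := by
    have hd : ∀ x ∈ Ioo 0 T, HasDerivAt (fun t => 32 * A t - G t - t / 20)
        (32 * a x - (3 / 2 * (Real.cos (θ x j) * (ω j - 1 / 32 * R (θ x) * Real.sin (θ x j))) +
          1 / 8 * (Real.cos (2 * θ x j) * (2 * (ω j - 1 / 32 * R (θ x) * Real.sin (θ x j))))) / ω j
          - 1 / 20) x := by
      intro x hx
      have h1 := sol_deriv hsol j hx.1
      have h2 := ((h1.sin.const_mul (3 / 2)).add ((h1.const_mul 2).sin.const_mul (1 / 8))).div_const (ω j)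
      exact (((hAd x).const_mul 32).sub h2).sub ((hasDerivAt_id x).div_const 20)
    refine monotoneOn_of_deriv_nonneg (convex_Icc 0 T) ?_ ?_ ?_
    · have h1 := (sol_cont hsol j).mono (Icc_subset_Ici_self : Icc (0 : ℝ) T ⊆ Ici 0)
      simp only [hG]
      exact ((hAc.continuousOn.const_mul 32).sub ((((Real.continuous_sin.comp_continuousOn h1).const_mul _).add
        ((Real.continuous_sin.comp_continuousOn (h1.const_mul 2)).const_mul _)).div_const _)).sub
        (by fun_prop)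
    · rw [interior_Icc]
      exact fun x hx => (hd x hx).differentiableAt.differentiableWithinAt
    · rw [interior_Icc]
      intro x hx
      rw [(hd x hx).deriv, haeq x hx.1.le]
      have hPx := hP x ⟨hx.1.le, hx.2.le⟩
      obtain ⟨r1, r2, r3⟩ := R_est h hPx.1 hPx.2
      have r3' := abs_le.1 (r3 j hj)
      have g1 := abs_le.1 (g_close (hPx.2 i hi j hj))
      set c := Real.cos (θ x j) with hc
      set s := Real.sin (θ x j) with hs
      set r := R (θ x) with hr
      set G' := g (θ x i) (θ x j) with hG'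
      have hc1 := abs_le.1 (Real.abs_cos_le_one (θ x j))
      have hs1 := abs_le.1 (Real.abs_sin_le_one (θ x j))
      have hcos2 : Real.cos (2 * θ x j) = 2 * c ^ 2 - 1 := Real.cos_two_mul _
      have hsc : s ^ 2 + c ^ 2 = 1 := Real.sin_sq_add_cos_sq _
      rw [hcos2]
      -- lower bound for `r G'`
      have k1 : (3 / 2 + c / 2) * c - 106 / 1000 ≤ r * G' := by
        have e1 : r * G' = (3 / 2 + c / 2) * c + (r - (3 / 2 + c / 2)) * c + r * (G' - c) := by ring
        have e2 : |(r - (3 / 2 + c / 2)) * c| ≤ 86 / 1000 * 1 := by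
          rw [abs_mul]
          exact mul_le_mul (r3 j hj) (Real.abs_cos_le_one _) (abs_nonneg _) (by norm_num)
        have e3 : |r * (G' - c)| ≤ 2 * (1 / 100) := by
          rw [abs_mul, abs_of_nonneg (by linarith : 0 ≤ r)]
          exact mul_le_mul r2 (g_close (hPx.2 i hi j hj)) (abs_nonneg _) (by norm_num)
        have e2' := (abs_le.1 e2).1
        have e3' := (abs_le.1 e3).1
        rw [e1]
        linarith
      -- the correction term
      have k2 : (3 / 2 * (c * (ω j - 1 / 32 * r * s)) + 1 / 8 * ((2 * c ^ 2 - 1) *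
          (2 * (ω j - 1 / 32 * r * s)))) / ω j =
          3 / 2 * c + (2 * c ^ 2 - 1) / 4 - (1 / 32 * r * (s * (3 / 2 * c + (2 * c ^ 2 - 1) / 4))) / ω j := by
        field_simp
        ring
      have k3 : |s * (3 / 2 * c + (2 * c ^ 2 - 1) / 4)| ≤ 1 := by
        have f1 : |s * c| ≤ 1 / 2 := by
          rw [abs_le]
          constructor <;> nlinarith [sq_nonneg (s + c), sq_nonneg (s - c)]
        have f2 : |s * (2 * c ^ 2 - 1)| ≤ 1 := by
          rw [abs_mul]
          calc |s| * |2 * c ^ 2 - 1| ≤ 1 * 1 := by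
                refine mul_le_mul (Real.abs_sin_le_one _) ?_ (abs_nonneg _) zero_le_one
                rw [← hcos2]
                exact Real.abs_cos_le_one _
            _ = 1 := one_mul 1
        have f3 : s * (3 / 2 * c + (2 * c ^ 2 - 1) / 4) = 3 / 2 * (s * c) + 1 / 4 * (s * (2 * c ^ 2 - 1)) := by
          ring
        have f1' := abs_le.1 f1
        have f2' := abs_le.1 f2
        rw [f3, abs_le]
        constructor <;> linarith
      have k4 : -(7 / 100) ≤ (1 / 32 * r * (s * (3 / 2 * c + (2 * c ^ 2 - 1) / 4))) / ω j := by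
        rw [le_div_iff₀ hωpos]
        have f4 := (abs_le.1 k3).1
        have f5 : -(1 / 32 * r) ≤ 1 / 32 * r * (s * (3 / 2 * c + (2 * c ^ 2 - 1) / 4)) := by
          nlinarith
        nlinarith
      rw [k2]
      have k5 : 32 * (1 / 32 * r * G') = r * G' := by ring
      rw [k5]
      nlinarith
  have hAA : ∀ s ∈ Icc 0 T, A s - A T ≤ 1 / 8 - (T - s) / 640 := by
    intro s hs
    have h1 := hmono hs (right_mem_Icc.2 hT) hs.2
    simp only at h1
    have h2 := abs_le.1 (hGb s)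
    have h3 := abs_le.1 (hGb T)
    linarith
  -- the integral bound
  have hJle : Real.exp (-A T) * J T ≤ 732 := by
    have e1 : Real.exp (-A T) * J T = ∫ s in (0 : ℝ)..T, Real.exp (A s - A T) := by
      simp only [hJ]
      rw [← intervalIntegral.integral_const_mul]
      refine intervalIntegral.integral_congr fun s _ => ?_
      show Real.exp (-A T) * Real.exp (A s) = Real.exp (A s - A T)
      rw [← Real.exp_add]
      congr 1
      ring
    have e2 : ∫ s in (0 : ℝ)..T, Real.exp (A s - A T) ≤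
        ∫ s in (0 : ℝ)..T, Real.exp (1 / 8) * Real.exp ((s - T) / 640) := by
      refine intervalIntegral.integral_mono_on hT (Continuous.intervalIntegrable (by fun_prop) _ _)
        (Continuous.intervalIntegrable (by fun_prop) _ _) fun s hs => ?_
      rw [← Real.exp_add]
      refine Real.exp_le_exp.2 ?_
      have := hAA s hs
      linarith
    have e3 : ∫ s in (0 : ℝ)..T, Real.exp (1 / 8) * Real.exp ((s - T) / 640) =
        Real.exp (1 / 8) * (640 * Real.exp ((T - T) / 640) - 640 * Real.exp ((0 - T) / 640)) := by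
      rw [intervalIntegral.integral_const_mul]
      congr 1
      refine intervalIntegral.integral_eq_sub_of_hasDerivAt (f := fun s => 640 * Real.exp ((s - T) / 640))
        (fun s _ => ?_) (Continuous.intervalIntegrable (by fun_prop) _ _)
      have h1 : HasDerivAt (fun s : ℝ => (s - T) / 640) (1 / 640) s :=
        ((hasDerivAt_id s).sub_const T).div_const 640
      refine (h1.exp.const_mul 640).congr_deriv ?_
      ring
    have e4 : Real.exp (1 / 8) ≤ 8 / 7 := by
      have := Real.exp_bound_div_one_sub_of_interval (x := 1 / 8) (by norm_num) (by norm_num)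
      norm_num at this ⊢
      linarith
    rw [e1]
    refine e2.trans ?_
    rw [e3, sub_self, zero_div, Real.exp_zero]
    have h5 := Real.exp_pos ((0 - T) / 640)
    have h6 := Real.exp_pos (1 / 8 : ℝ)
    nlinarith
  have hωi := abs_le.1 (h.freqC i hi)
  have hJ0 : 0 ≤ J T := intervalIntegral.integral_nonneg hT fun s _ => (Real.exp_pos _).le
  have hfin : θ T i - θ T j = (ω i - ω j) * (Real.exp (-A T) * J T) := by
    have h1 : Real.exp (A T) * Real.exp (-A T) = 1 := by rw [← Real.exp_add]; simp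
    linear_combination (Real.exp (-A T)) * hvoc - (θ T i - θ T j) * h1
  rw [hfin, abs_mul, abs_of_nonneg (mul_nonneg (Real.exp_pos _).le hJ0)]
  have h2 : |ω i - ω j| ≤ 2 / 200000 := abs_le.2 ⟨by linarith, by linarith⟩
  calc |ω i - ω j| * (Real.exp (-A T) * J T) ≤ 2 / 200000 * 732 :=
        mul_le_mul h2 hJle (mul_nonneg (Real.exp_pos _).le hJ0) (by norm_num)
    _ ≤ 8 / 1000 := by norm_num

end Dynamics

/-! ### The theorem -/

section Final

variable {N : ℕ} {ω : Fin N → ℝ} {B C D : Finset (Fin N)} {θ : ℝ → Fin N → ℝ}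

lemma always (h : Setup ω B C D) (hsol : IsSolution ω (1 / 32) 0 θ) :
    ∀ t : ℝ, 0 ≤ t → P B C (θ t) := by
  refine bootstrap (P := fun t => P B C (θ t)) (Q := fun t => Q B C (θ t)) ?_ ?_ ?_ ?_
  · rw [hsol.1]
    refine ⟨fun k _ => ?_, fun i _ j _ => ?_⟩
    · rw [Pi.zero_apply, abs_zero]; norm_num
    · rw [Pi.zero_apply, Pi.zero_apply, sub_self, abs_zero]; norm_num
  · intro T hT hall
    have hlim : ∀ k, Tendsto (fun s => θ s k) (𝓝[<] T) (𝓝 (θ T k)) := fun k =>
      (((sol_cont hsol k) T hT.le).continuousAt (Ici_mem_nhds hT)).tendsto.mono_left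
        nhdsWithin_le_nhds
    have hev : ∀ᶠ s in 𝓝[<] T, s ∈ Ico 0 T :=
      mem_of_superset (Ioo_mem_nhdsLT hT) Ioo_subset_Ico_self
    refine ⟨fun k hk => ?_, fun i hi j hj => ?_⟩
    · refine le_of_tendsto (hlim k).abs ?_
      filter_upwards [hev] with s hs using (hall s hs).1 k hk
    · refine le_of_tendsto ((hlim i).sub (hlim j)).abs ?_
      filter_upwards [hev] with s hs using (hall s hs).2 i hi j hj
  · intro T hT hall
    exact ⟨fun k hk => trap h hsol hall k hk T (right_mem_Icc.2 hT), locking h hsol hT hall⟩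
  · intro T hT hQ
    have hlim : ∀ k, Tendsto (fun s => θ s k) (𝓝[>] T) (𝓝 (θ T k)) := fun k =>
      (((sol_cont hsol k) T hT).mono (Ioi_subset_Ici hT)).tendsto
    have h1 : ∀ k ∈ B, ∀ᶠ s in 𝓝[>] T, |θ s k| ≤ 2 / 5 := by
      intro k hk
      have h2 : |θ T k| < 2 / 5 := lt_of_le_of_lt (hQ.1 k hk) (by norm_num)
      exact ((hlim k).abs.eventually (gt_mem_nhds h2)).mono fun s hs => hs.le
    have h2 : ∀ i ∈ C, ∀ j ∈ C, ∀ᶠ s in 𝓝[>] T, |θ s i - θ s j| ≤ 1 / 100 := by
      intro i hi j hj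
      have h3 : |θ T i - θ T j| < 1 / 100 := lt_of_le_of_lt (hQ.2 i hi j hj) (by norm_num)
      exact (((hlim i).sub (hlim j)).abs.eventually (gt_mem_nhds h3)).mono fun s hs => hs.le
    have h1' : ∀ᶠ s in 𝓝[>] T, ∀ k ∈ B, |θ s k| ≤ 2 / 5 := (Filter.eventually_all_finset B).2 h1
    have h2' : ∀ᶠ s in 𝓝[>] T, ∀ i ∈ C, ∀ j ∈ C, |θ s i - θ s j| ≤ 1 / 100 :=
      (Filter.eventually_all_finset C).2 fun i hi => (Filter.eventually_all_finset C).2 (h2 i hi)
    filter_upwards [h1', h2'] with s hs1 hs2 using ⟨hs1, hs2⟩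

lemma drift (h : Setup ω B C D) (hsol : IsSolution ω (1 / 32) 0 θ) {i : Fin N} (hi : i ∈ C) {t : ℝ}
    (ht : 0 ≤ t) : 9 / 10 * t ≤ θ t i := by
  have hω := abs_le.1 (h.freqC i hi)
  have hmono : MonotoneOn (fun s => θ s i - 9 / 10 * s) (Ici 0) := by
    have hd : ∀ x, 0 < x → HasDerivAt (fun s => θ s i - 9 / 10 * s)
        (ω i - 1 / 32 * R (θ x) * Real.sin (θ x i) - 9 / 10 * 1) x := fun x hx =>
      (sol_deriv hsol i hx).sub ((hasDerivAt_id x).const_mul (9 / 10))
    refine monotoneOn_of_deriv_nonneg (convex_Ici 0) ?_ ?_ ?_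
    · exact (sol_cont hsol i).sub (by fun_prop)
    · rw [interior_Ici]
      exact fun x hx => (hd x hx).differentiableAt.differentiableWithinAt
    · rw [interior_Ici]
      intro x hx
      rw [(hd x hx).deriv]
      have hP := always h hsol x (mem_Ioi.1 hx).le
      obtain ⟨r1, r2, _⟩ := R_est h hP.1 hP.2
      have := Real.sin_le_one (θ x i)
      have := Real.neg_one_le_sin (θ x i)
      nlinarith
  have h0 := hmono (mem_Ici.2 le_rfl) (mem_Ici.2 ht) ht
  simp only [hsol.1, Pi.zero_apply, mul_zero, sub_zero] at h0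
  linarith

end Final

/-- **Theorem.** With `ρ₁ = ρ₂ = 49/100`, `γ = 1/200000` and `κ = 1/32` the following holds: for all
`N`, `ω` and disjoint index sets as in the question there is an initial datum (the zero datum) for
which a solution exists on `[0, ∞)` and every solution exhibits both `𝓑`-partial oscillator death and
`𝓒`-partial oscillator locking. Up to two percent of the oscillators have arbitrary frequencies. -/
theorem result : ∃ ρ₁ ρ₂ γ κ : ℝ, 0 < ρ₁ ∧ ρ₁ ≤ 1 ∧ 0 < ρ₂ ∧ ρ₂ ≤ 1 ∧ 0 < γ ∧ γ ≤ 1 ∧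
    ρ₁ + ρ₂ < 1 ∧ 0 < κ ∧
    ∀ (N : ℕ), 1 ≤ N → ∀ (ω : Fin N → ℝ) (𝓑 𝓒 : Finset (Fin N)), Disjoint 𝓑 𝓒 →
      ρ₁ * N ≤ 𝓑.card → ρ₂ * N ≤ 𝓒.card →
      (∀ i ∈ 𝓑, ω i ∈ Icc (-γ) γ) → (∀ i ∈ 𝓒, ω i ∈ Icc (1 - γ) (1 + γ)) →
      ∃ Θ₀ : Fin N → ℝ, (∃ θ, IsSolution ω κ Θ₀ θ) ∧
        ∀ θ, IsSolution ω κ Θ₀ θ → PartialDeath 𝓑 θ ∧ PartialLocking 𝓒 θ := by
  refine ⟨49 / 100, 49 / 100, 1 / 200000, 1 / 32, by norm_num, by norm_num, by norm_num, by norm_num,
    by norm_num, by norm_num, by norm_num, by norm_num, ?_⟩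
  intro N hN ω B C hdisj hB hC hωB hωC
  have hcard : B.card + C.card + (B ∪ C)ᶜ.card = N := by
    rw [← Finset.card_union_of_disjoint hdisj, Finset.card_add_card_compl, Fintype.card_fin]
  have hcard' : (B.card : ℝ) + C.card + (B ∪ C)ᶜ.card = N := by exact_mod_cast hcard
  have hD0 : (0 : ℝ) ≤ (B ∪ C)ᶜ.card := Nat.cast_nonneg _
  have hsetup : Setup ω B C (B ∪ C)ᶜ := by
    refine ⟨hN, ⟨hB, by linarith⟩, ⟨hC, by linarith⟩, by linarith, fun f => ?_, fun i hi => ?_,
      fun i hi => ?_⟩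
    · rw [← Finset.sum_union hdisj, Finset.sum_add_sum_compl]
    · exact abs_le.2 (hωB i hi)
    · have := hωC i hi
      exact abs_le.2 ⟨by linarith [this.1], by linarith [this.2]⟩
  refine ⟨0, exists_solution ω (by norm_num) 0, fun θ hsol => ⟨fun i hi => ⟨2 / 5, fun t ht =>
    (always hsetup hsol t ht).1 i hi⟩, fun i hi j hj => ⟨1 / 100, fun t ht =>
    (always hsetup hsol t ht).2 i hi j hj⟩, fun i hi hlim => ?_⟩⟩
  have h1 : ∀ᶠ t in atTop, (9 / 10 : ℝ) ≤ θ t i / t := by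
    filter_upwards [eventually_gt_atTop 0] with t ht
    rw [le_div_iff₀ ht]
    exact drift hsetup hsol hi ht.le
  have := ge_of_tendsto hlim h1
  norm_num at this

end Pool.Agent.Results.MP_3a3e96_an.Winfree
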